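import Mathlib
import Pool.Agent.R931.ZG.AtEx

/-!
# The irreducibility of the representations above a given prime, from finitely many Hecke polynomials

Let `π` be an algebraic cuspidal automorphic representation of `GL_n` over a number field `K` (for example
`ℚ`) whose Hecke polynomials have coefficients in the number field `E`, with the attached representations
`V_λ` of the Galois group of `K` over the completions `E_λ`.  For a prime number `ℓ` let `V_ℓ` be the
sum of the `V_λ`, for all `λ` above `ℓ`: it is a representation over `ℚ_ℓ` of dimension `N = n [E : ℚ]` with an
action of `E`, and its Frobenius polynomials `P v` are the norms of the Hecke polynomials.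
For an embedding `φ` of `E` in the algebraic closure of `ℚ_ℓ`, corresponding to a place `λ`, the part
`partAt ε φ` of `V_ℓ` is the representation `V_λ` over the algebraic closure of `ℚ_ℓ`, of dimension `n`.
(More generally the theorem is about representations of a compact group `Γ` with a
homomorphism from the Galois group.)  We assume purity (the Ramanujan conjecture) and integrality: outside
of a finite set `S` of places `v` the Frobenius eigenvalues have absolute value `(q v) ^ (wt / 2)`, and
`(q v) ^ c` times an eigenvalue is an algebraic integer; these are known if `π` is regular and
essentially self-dual, and for all motives.  No self-duality, no regularity and nothing at the places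
above `ℓ` is used.  Let `r` be the maximal number of multiplicatively independent eigenvalues of a
Frobenius element on `V_ℓ` (the rank of the `ℓ`-adic monodromy groups).

The *relations* between numbers `z_1, ..., z_N` are the vectors `n` of integers such that the product of
the `z_i ^ {n_i}` is a root of unity.  Let `R` be a set of vectors of rank at most `N - r`, and let `A` be
the group of permutations of `{1, ..., N}` which preserve `R`.  We fix the prime number `ℓ` and an
automorphism `τ` of the algebraic closure of `ℚ_ℓ`.  An element `γ` of the image of the Galois group on `V_ℓ`
has the *type* `a` if its eigenvalues can be written as `z_1, ..., z_N` with relations `R`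
and `τ (z_i) = z_{a(i)}` (no quotient of two of them being a root of unity).  In the same way we define
the types of the elements of the Lie algebra of the image.  If `P v` is separable modulo `ℓ`
and `τ` induces the Frobenius automorphism of the residue field, then the cycle type of a type of the Frobenius
element at `v` is given by the degrees of the factors of `P v` modulo `ℓ`.

**Theorem.**  Let `T` be a nonempty set of types which occur at `ℓ` for `τ`.  Suppose that a subgroup `H` of `A`
has at most `[E : ℚ]` orbits whenever there is an element `y` of `A` which normalizes `H` such that all
elements of `T` are conjugate in `A` to elements of the coset `H * y`.  Then for all places `λ` above `ℓ`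
the representation `V_λ` is absolutely irreducible, also for all subgroups of finite index.
Moreover the only endomorphisms of `V_ℓ` which commute with a subgroup of finite index are the elements of
`E ⊗ ℚ_ℓ` (so the `V_λ` and their conjugates are not isomorphic to each other).

If `E = ℚ`, the condition is satisfied if the types contain `1` and generate `A` invariably, for a
transitive group `A`, or if `A = W * Z` with a central subgroup `Z`, and they contain `1` and a
set which generates the transitive group `W` invariably (`orbitsAt_of_central`); for example if the image
of the Galois group is open in `GSp_N(ℚ_ℓ)`, where `ℓ` is any prime: so if this is true, the irreducibility at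
`ℓ` can be proved by computing finitely many Hecke polynomials.  The same is true for `GL_1` times a spin or
half-spin group, for `E_7` in the minuscule representation, or for a tensor product of such groups, if the group
is split over `ℚ_ℓ`.  The usual way to prove irreducibility by Hecke polynomials is to find
polynomials which are irreducible over `ℚ_ℓ`, or whose factors have degrees which are not compatible with a
common subspace.  Here the eigenvalues at different places are compared: a stable subspace
determines sets of eigenvalues at all places, which correspond to each other under bijections which
preserve the multiplicative relations.  So the theorem also applies if at `ℓ` all Hecke polynomials have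
factors of all degrees (for instance if `W` is not generated by transitive elements: for the spin
representations, every element of `W` has many orbits, and their lengths are compatible with subspaces of many
dimensions).

The theorem is about the places above one given prime.  `ZeroOneIrreducibility` in this folder is about `100`
percent of the primes, and it uses the types at another prime.  `OnePrimeCriterion` deduces the
irreducibility for all `ℓ` from one Hecke polynomial, if its Galois group is doubly transitive.

Idea of the proof.  Call a place good if no quotient of two Frobenius eigenvalues is a root of unity and
if there are `r` multiplicatively independent ones.  Every element of `T` occurs at a good place.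
Let `U` be a subspace of `V_ℓ`, over the algebraic closure of `ℚ_ℓ`, which is stable under an open
subgroup.  At every good place, `U` determines a set of Frobenius eigenvalues.  For two good
places consider the pencil of tangent vectors which is spanned by the logarithms of the Frobenius
elements: its members have at most `r` independent eigenvalues, so there is a bijection between the two
sets of eigenvalues which preserves the relations and the sets determined by all `U` at the same
time.  The automorphism `τ` permutes the subspaces `U`; so we obtain a group `H` which preserves
the sets of all `U`, and a coset `H * y` which contains conjugates of all elements of `T`.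
So `H` has at most `[E : ℚ]` orbits.  The parts of `V_ℓ` which belong to the `[E : ℚ]` embeddings of `E`
define different unions of orbits; so each of them is one orbit, and therefore irreducible.
-/

set_option autoImplicit false

namespace Pool.Agent.Results.MP_fa5bba_nt.IrreducibleAtOnePrime

open NumberField IsDedekindDomain Polynomial Module Pool.Agent.Y114.TF Pool.Agent.Y114.GF
  Pool.Agent.Y114.MU Pool.Agent.Y114.RM Pool.Agent.R931.GD Pool.Agent.R931.ZL Pool.Agent.R931.ZM
  Pool.Agent.R931.PD Pool.Agent.R931.ZF Pool.Agent.R931.ZG

theorem result (K : Type) [Field K] [NumberField K] (Γ : Type) [Group Γ] [TopologicalSpace Γ]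
    [IsTopologicalGroup Γ] [CompactSpace Γ] (s : Gal(AlgebraicClosure K/K) →* Γ)
    (hs : Continuous s)
    -- the `ℓ`-adic representations
    (N : ℕ) (hN : 0 < N)
    (ρ : ∀ (ℓ : ℕ) [Fact ℓ.Prime], Rep1 Γ N ℓ) (hρ : ∀ (ℓ : ℕ) [Fact ℓ.Prime], Conts (ρ ℓ))
    -- the Frobenius polynomials outside of a finite set of places
    (wt : ℤ) (c : ℕ) (S : Set (HeightOneSpectrum (𝓞 K))) (hS : S.Finite)
    (P : HeightOneSpectrum (𝓞 K) → ℚ[X])
    (hP : ∀ (ℓ : ℕ) [Fact ℓ.Prime], ∀ v ∉ S, ¬ Above v ℓ →
      GoodReduction (restrictTo (ρ ℓ) s) () wt v (P v))
    (hint : ∀ v ∉ S, IntegralAt c v (P v))
    -- at most `r` independent eigenvalues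
    (r : ℕ) (hrank : ∀ v ∉ S, ¬ IndepRoots (r + 1) {P v})
    -- the relations, and their automorphism group
    (R : Set (Fin N → ℤ)) (hR : RankGE r R)
    -- the types at the prime number `ℓ`
    (ℓ : ℕ) [Fact ℓ.Prime] (T : Set (Equiv.Perm (Fin N))) (hne : T.Nonempty)
    (τ : Gal(PadicAlgCl ℓ/ℚ_[ℓ])) (htypes : ∀ a ∈ T, TypeOccurs s (ρ ℓ) R τ a)
    -- the coefficients
    (E : Type) [Field E] [NumberField E] (n : ℕ) (hn : 0 < n)
    (ε : E →+* End ℚ_[ℓ] (Fin N → ℚ_[ℓ])) (hε : ActsFreely n (ρ ℓ) ε)
    -- the condition on the permutation groups
    (hm : ForcesAt (relAut R) T fun H => orbitCount H ≤ finrank ℚ E) :
    (∀ φ : E →+* PadicAlgCl ℓ, StronglyIrreducible (ρ ℓ) (partAt ε φ)) ∧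
      ∀ Δ : Subgroup Γ, Δ.FiniteIndex →
        centralizerDim (ρ ℓ () '' (Δ : Set Γ)) ≤ finrank ℚ E :=
  irr_at (K := K) (Γ := Γ) (s := s) (N := N) (wt := wt) (c := c) (r := r) (S := S) (P := P)
    (ρ := ρ) (E := E) ⟨hN, hs, hρ, hS, hP, hint, fun v hv => hrank v hv.1⟩ R hR ℓ T hne τ htypes n
    hn ε hε hm

end Pool.Agent.Results.MP_fa5bba_nt.IrreducibleAtOnePrime
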