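import Pool.Agent.R401.Crit2
import Pool.Agent.R401.Crit3

/-!
# Irreducibility for all `ℓ` from the Hecke polynomial at one prime

Let `π` be an algebraic cuspidal automorphic representation of `GL_n` over `ℚ`, unramified outside of
the finite set `B`, and for a prime number `p` outside of `B` let `S p` be the multiset of the
eigenvalues of the Satake parameter of `π_p` (in Clozel's normalisation), so that
`f_p = ∏ (X - x)`, `x ∈ S p`, is the Hecke polynomial.  Let `ρ` be a continuous representation
attached to `π` (with respect to `ι : ℚbar_ℓ → ℂ`).  We show: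

* for every stable subspace `U` of `ρ`, of dimension `k`, there are `N > 0` and `a` such that for
  **every** prime number `p` outside of `B` some product of `k` members of `S p` has `N`-th power
  `p ^ a` (also for `p = ℓ`, if there is an attached representation for one other prime);
  if all Hecke polynomials have coefficients in one number field, then `a / N` is an integer;
* `ρ` is irreducible if for **one** prime number `p` outside of `B` (it may be `ℓ` if there is an
  attached representation for one other prime) the Hecke polynomial `f_p` is irreducible over a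
  field `K` which contains its coefficients, `n` is a prime number or the Galois group of `f_p` over
  `K` is doubly transitive (for example the full symmetric or the alternating group, `n ≥ 4`), and
  the roots of `f_p` are not of the form `ζ p ^ r` with a root of unity `ζ` and a rational `r`.
  So the irreducibility for all `ℓ` and `ι` at once is decided at one prime;
* if all Hecke polynomials have coefficients in one number field and the roots of one of them
  have absolute value `p ^ (w / 2)` with `w` odd, then all stable subspaces have even dimension.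

Nothing is assumed at infinity (no regularity), no self-duality, nothing on the local
representations at the primes in `B` or at `ℓ`, and `ρ` need not be semisimple.  All that is used of
the Satake parameters is that they are algebraic at three primes.

Proof.  By the `ℓ`-adic six exponentials theorem (library `Pool.Agent.Y115`) the determinant of `U`
is, up to finite order, a rational power of the cyclotomic character.  The relation is carried from
one `ℓ` to another by the theorem of Chebotarev.  The weight is integral because a product of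
eigenvalues of a Frobenius element close to `1` has no conjugates over the field of coefficients,
and a number field which contains the `d`-th root of `p` ramifies at `p`.  Finally the relations
between the roots of `f_p`, modulo powers of `p`, are a rational subspace of the permutation module
of the Galois group, and this has few subspaces.
-/

set_option autoImplicit false

namespace Pool.Agent.Results.MP_fa5bba_nt.OnePrimeCriterion

open NumberField Polynomial Matrix

/-- `Q` is a prime ideal above the prime number `p` of the ring of all algebraic integers. -/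
def PrimeOver (p : ℕ) (Q : Ideal (𝓞 (AlgebraicClosure ℚ))) : Prop :=
  Q.IsPrime ∧ (p : 𝓞 (AlgebraicClosure ℚ)) ∈ Q

/-- `g` is in the inertia group at `Q`. -/
def IsInertia (Q : Ideal (𝓞 (AlgebraicClosure ℚ))) (g : Gal(AlgebraicClosure ℚ/ℚ)) : Prop :=
  ∀ x : 𝓞 (AlgebraicClosure ℚ), g • x - x ∈ Q

/-- `g` is an (arithmetic) Frobenius element at the prime ideal `Q` above `p`. -/
def IsFrobenius (p : ℕ) (Q : Ideal (𝓞 (AlgebraicClosure ℚ))) (g : Gal(AlgebraicClosure ℚ/ℚ)) :
    Prop := ∀ x : 𝓞 (AlgebraicClosure ℚ), g • x - x ^ p ∈ Q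

variable {ℓ : ℕ} [Fact ℓ.Prime] {n : ℕ}

/-- The matrix of `g`. -/
noncomputable def mat (ρ : Gal(AlgebraicClosure ℚ/ℚ) →* GL (Fin n) (PadicAlgCl ℓ))
    (g : Gal(AlgebraicClosure ℚ/ℚ)) : Matrix (Fin n) (Fin n) (PadicAlgCl ℓ) :=
  (ρ g : GL (Fin n) (PadicAlgCl ℓ))

/-- The representation `ρ` is unramified at `p`, and the eigenvalues (with multiplicities) of every
geometric Frobenius element at `p` correspond under `ι` to the complex numbers in `S`. -/
structure AttachedAt (ρ : Gal(AlgebraicClosure ℚ/ℚ) →* GL (Fin n) (PadicAlgCl ℓ))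
    (ι : PadicAlgCl ℓ →+* ℂ) (p : ℕ) (S : Multiset ℂ) : Prop where
  unramified : ∀ Q, PrimeOver p Q → ∀ g, IsInertia Q g → ρ g = 1
  frobenius : ∀ Q, PrimeOver p Q → ∀ g, IsFrobenius p Q g → ((mat ρ g⁻¹).charpoly.map ι).roots = S

/-- `ρ` is continuous and attached to the multisets `S p` at all prime numbers `p ≠ ℓ` outside
of `B`. -/
structure Attached (ρ : Gal(AlgebraicClosure ℚ/ℚ) →* GL (Fin n) (PadicAlgCl ℓ))
    (ι : PadicAlgCl ℓ →+* ℂ) (B : Set ℕ) (S : ℕ → Multiset ℂ) : Prop where
  continuous : Continuous ρ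
  attached : ∀ p, p.Prime → p ∉ B → p ≠ ℓ → AttachedAt ρ ι p (S p)

/-- `U` is a subrepresentation of `ρ`. -/
def Stable (ρ : Gal(AlgebraicClosure ℚ/ℚ) →* GL (Fin n) (PadicAlgCl ℓ))
    (U : Submodule (PadicAlgCl ℓ) (Fin n → PadicAlgCl ℓ)) : Prop := ∀ g, ∀ x ∈ U, mat ρ g *ᵥ x ∈ U

/-- `ρ` is irreducible. -/
def Irreducible (ρ : Gal(AlgebraicClosure ℚ/ℚ) →* GL (Fin n) (PadicAlgCl ℓ)) : Prop :=
  0 < n ∧ ∀ U, Stable ρ U → U = ⊥ ∨ U = ⊤

/-- There is a prime number `ℓ ≠ p` and a continuous representation of dimension `n` over `ℚbar_ℓ`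
attached to `S` outside of `B` (with respect to some `ι`). -/
def HasRepresentationAwayFrom (n : ℕ) (B : Set ℕ) (S : ℕ → Multiset ℂ) (p : ℕ) : Prop :=
  ∃ (ℓ : ℕ) (_ : Fact ℓ.Prime) (ι : PadicAlgCl ℓ →+* ℂ)
    (ρ : Gal(AlgebraicClosure ℚ/ℚ) →* GL (Fin n) (PadicAlgCl ℓ)), p ≠ ℓ ∧ Attached ρ ι B S

/-- Some product of `k` members of `s` (counted with multiplicities) has `N`-th power `c`. -/
def SubProduct (s : Multiset ℂ) (k N : ℕ) (c : ℂ) : Prop :=
  ∃ V ≤ s, Multiset.card V = k ∧ V.prod ^ N = c

/-- For all prime numbers `p ≠ ℓ` outside of `B` the coefficients of `∏ (X - x)`, `x ∈ S p`, are in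
the field `K`. -/
def CoefficientsIn (ℓ : ℕ) (B : Set ℕ) (S : ℕ → Multiset ℂ) (K : IntermediateField ℚ ℂ) : Prop :=
  ∀ p, p.Prime → p ∉ B → p ≠ ℓ → ∀ i, (((S p).map fun x => X - C x).prod).coeff i ∈ K

/-- For some subfield `K` of `ℂ` the members of `s` are the roots of an irreducible polynomial over
`K`, and the number of the roots is a prime number or the automorphisms of `ℂ` over `K` permute them
doubly transitively. -/
def LargeGaloisGroup (s : Multiset ℂ) : Prop :=
  ∃ (K : Subfield ℂ) (f : K[X]), _root_.Irreducible f ∧ (f.map K.subtype).roots = s ∧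
    ((Multiset.card s).Prime ∨ ∀ a ∈ s, ∀ b ∈ s, ∀ c ∈ s, ∀ d ∈ s, a ≠ b → c ≠ d →
      ∃ τ : ℂ ≃+* ℂ, (∀ x ∈ K, τ x = x) ∧ τ a = c ∧ τ b = d)

/-- **Irreducibility from one prime.**

Let `B` be a finite set, `S p`, for the prime numbers `p` outside of `B`, multisets of complex
numbers, and `ρ` a continuous representation of `Gal(ℚbar/ℚ)` over `ℚbar_ℓ` attached to `S` at all
prime numbers `p ≠ ℓ` outside of `B`.  For at least three of these `p` let the members of `S p` be
algebraic.

(1) For every stable subspace `U` there are `N > 0` and `a` such that for every prime number `p`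
outside of `B`, for which a representation attached to `S` exists for some prime number different
from `p` (such as `ρ`, if `p ≠ ℓ`), some product of `dim U` members of `S p` has `N`-th power
`p ^ a`.  If the polynomials with the roots `S p` have coefficients in one number field then
`N ∣ a`.

(2) `ρ` is irreducible if for one such prime number `p` the members of `S p` are the
roots of an irreducible polynomial, over a subfield of `ℂ`, which is of prime degree or has a
doubly transitive Galois group, and one of them is not a root of unity times a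
rational power of `p`.

(3) If the polynomials with the roots `S p` have coefficients in one number field, and if for one
`p ≠ ℓ` outside of `B` and one odd `w` the members of `S p` have absolute value `p ^ (w / 2)`, then
all stable subspaces have even dimension. -/
theorem result {n : ℕ} (B : Set ℕ) (hB : B.Finite) (S : ℕ → Multiset ℂ) (ℓ : ℕ) [Fact ℓ.Prime]
    (ι : PadicAlgCl ℓ →+* ℂ) (ρ : Gal(AlgebraicClosure ℚ/ℚ) →* GL (Fin n) (PadicAlgCl ℓ))
    (hρ : Attached ρ ι B S)
    (halg : 3 ≤ {p : ℕ | p.Prime ∧ p ∉ B ∧ p ≠ ℓ ∧ ∀ x ∈ S p, IsAlgebraic ℚ x}.encard) :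
    (∀ U, Stable ρ U → ∃ (N : ℕ) (a : ℤ), 0 < N ∧
      (∀ p, p.Prime → p ∉ B → HasRepresentationAwayFrom n B S p →
        SubProduct (S p) (Module.finrank (PadicAlgCl ℓ) U) N ((p : ℂ) ^ a)) ∧
      ∀ K : IntermediateField ℚ ℂ, FiniteDimensional ℚ K → CoefficientsIn ℓ B S K →
        (N : ℤ) ∣ a) ∧
    (∀ p, p.Prime → p ∉ B → HasRepresentationAwayFrom n B S p → LargeGaloisGroup (S p) →
      (∃ x ∈ S p, ∀ (N : ℕ) (a : ℤ), 0 < N → x ^ N ≠ (p : ℂ) ^ a) → Irreducible ρ) ∧
    (∀ K : IntermediateField ℚ ℂ, FiniteDimensional ℚ K → CoefficientsIn ℓ B S K →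
      ∀ p, p.Prime → p ∉ B → p ≠ ℓ → ∀ w : ℕ, Odd w → (∀ x ∈ S p, ‖x‖ ^ 2 = (p : ℝ) ^ w) →
        ∀ U, Stable ρ U → Even (Module.finrank (PadicAlgCl ℓ) U)) := by
  classical
  have hgood : ∀ {ℓ' : ℕ} [Fact ℓ'.Prime] (ι' : PadicAlgCl ℓ' →+* ℂ)
      (ρ' : Gal(AlgebraicClosure ℚ/ℚ) →* GL (Fin n) (PadicAlgCl ℓ')), Attached ρ' ι' B S →
      Pool.Agent.R401.Crit.Good ρ' ι' B S := fun ι' ρ' h =>
    ⟨h.continuous, fun p hp hpB hpℓ Q hQ hpQ g hg =>
      (h.attached p hp hpB hpℓ).frobenius Q ⟨hQ, hpQ⟩ g hg⟩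
  have hstab : ∀ U, Stable ρ U → ∀ g, U ≤ U.comap (Pool.Agent.Y115.R.act ρ g) :=
    fun U hU g x hx => hU g x hx
  have hrel : ∀ U, Stable ρ U → ∃ (N : ℕ) (a : ℤ), 0 < N ∧
      (∀ p : ℕ, p.Prime → p ∉ B → p ≠ ℓ →
        SubProduct (S p) (Module.finrank (PadicAlgCl ℓ) U) N ((p : ℂ) ^ a)) ∧
      ∀ p, p.Prime → p ∉ B → HasRepresentationAwayFrom n B S p →
        SubProduct (S p) (Module.finrank (PadicAlgCl ℓ) U) N ((p : ℂ) ^ a) := by
    intro U hU
    obtain ⟨N, a, hN, h⟩ := Pool.Agent.R401.Crit.rel_of_stable (hgood ι ρ hρ) halg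
      (fun p hp => ⟨hp.1, hp.2.1, hp.2.2.1⟩) (fun p hp => hp.2.2.2) U (hstab U hU)
    refine ⟨N, a, hN, h, fun p hp hpB hrep => ?_⟩
    obtain ⟨ℓ', hℓ', ι', ρ', hpℓ', hρ'⟩ := hrep
    exact Pool.Agent.R401.Crit.transfer (hgood ι' ρ' hρ') hB (Set.finite_singleton ℓ)
      (fun q hq hqB hqℓ => h q hq hqB (by simpa using hqℓ)) p hp hpB hpℓ'
  have hcard : ∀ p, p.Prime → p ∉ B → HasRepresentationAwayFrom n B S p →
      Multiset.card (S p) = n ∧ ∀ x ∈ S p, x ≠ 0 := by
    rintro p hp hpB ⟨ℓ', hℓ', ι', ρ', hpℓ', hρ'⟩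
    obtain ⟨P, σ, hP, hpP, hσ⟩ := Pool.Agent.Y115.T.exists_frobQ hp
    have h1 := (hρ'.attached p hp hpB hpℓ').frobenius P ⟨hP.isPrime, hpP⟩ σ hσ
    have h2 := (IsAlgClosed.splits (mat ρ' σ⁻¹).charpoly).roots_map ι'
    rw [h1] at h2
    refine ⟨?_, fun x hx => ?_⟩
    · rw [h2, Multiset.card_map, ← (IsAlgClosed.splits (mat ρ' σ⁻¹).charpoly).natDegree_eq_card_roots,
        Matrix.charpoly_natDegree_eq_dim, Fintype.card_fin]
    · rw [h2, Multiset.mem_map] at hx
      obtain ⟨z, hz, rfl⟩ := hx
      have h3 := Pool.Agent.R401.Crit.eig_ne_zero ρ' hρ'.continuous σ⁻¹ hz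
      rwa [Ne, map_eq_zero]
  refine ⟨?_, ?_, ?_⟩
  · intro U hU
    obtain ⟨N, a, hN, h1, h2⟩ := hrel U hU
    refine ⟨N, a, hN, h2, fun K hK hco => ?_⟩
    exact Pool.Agent.R401.Crit.int_weight (hgood ι ρ hρ) hB K hco hN h1
  · intro p hp hpB hrep hgal hx
    obtain ⟨K, f, hf, hfs, hcase⟩ := hgal
    obtain ⟨x, hx, hxN⟩ := hx
    obtain ⟨hc, h0⟩ := hcard p hp hpB hrep
    have hn : 0 < n := by
      rw [← hc]
      exact Multiset.card_pos_iff_exists_mem.2 ⟨x, hx⟩
    refine ⟨hn, fun U hU => ?_⟩
    by_contra hcon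
    push Not at hcon
    obtain ⟨N, a, hN, -, h2⟩ := hrel U hU
    have hk : 0 < Module.finrank (PadicAlgCl ℓ) U := by
      rw [Module.finrank_pos_iff]
      exact Submodule.nontrivial_iff_ne_bot.2 hcon.1
    have hkn : Module.finrank (PadicAlgCl ℓ) U < Multiset.card (S p) := by
      rw [hc]
      have h3 := Submodule.finrank_lt (lt_top_iff_ne_top.2 hcon.2).ne
      rwa [Module.finrank_fin_fun] at h3
    obtain ⟨M, b, hM, hMb⟩ := Pool.Agent.R401.Crit.single_rel K f hf hfs h0 hp.ne_zero hcase hk
      hkn hN (h2 p hp hpB hrep) hx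
    exact hxN M b hM hMb
  · intro K hK hco p hp hpB hpℓ w hw hnorm U hU
    obtain ⟨N, a, hN, h1, -⟩ := hrel U hU
    obtain ⟨m, rfl⟩ := Pool.Agent.R401.Crit.int_weight (hgood ι ρ hρ) hB K hco hN h1
    obtain ⟨V, hV, hVk, hVN⟩ := h1 p hp hpB hpℓ
    have hp1 : (1 : ℝ) < p := by exact_mod_cast hp.one_lt
    have hp0 : (0 : ℝ) < p := by positivity
    have h2 : ‖V.prod‖ ^ 2 = (p : ℝ) ^ (w * Module.finrank (PadicAlgCl ℓ) U) := by
      rw [← hVk]
      clear hVk hVN
      induction V using Multiset.induction_on with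
      | empty => simp
      | cons x V ih =>
        rw [Multiset.prod_cons, norm_mul, mul_pow, ih ((Multiset.le_cons_self V x).trans hV),
          hnorm x (Multiset.mem_of_le hV (Multiset.mem_cons_self x V)), Multiset.card_cons, mul_add,
          mul_one, pow_add, mul_comm]
    have h3 : ‖V.prod‖ = (p : ℝ) ^ m := by
      have h4 := congrArg norm hVN
      rw [norm_pow, norm_zpow, Complex.norm_natCast, mul_comm, _root_.zpow_mul, zpow_natCast] at h4
      exact (pow_left_inj₀ (norm_nonneg _) (zpow_nonneg hp0.le _) hN.ne').1 h4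
    rw [h3, ← zpow_natCast, ← _root_.zpow_mul, ← zpow_natCast] at h2
    have h4 := zpow_right_injective₀ hp0 hp1.ne' h2
    push_cast at h4
    obtain ⟨v, rfl⟩ := hw
    have h5 : (Module.finrank (PadicAlgCl ℓ) U : ℤ) =
        2 * (m - v * Module.finrank (PadicAlgCl ℓ) U) := by
      push_cast at h4
      linarith
    have h6 : Even (Module.finrank (PadicAlgCl ℓ) U : ℤ) :=
      ⟨m - v * Module.finrank (PadicAlgCl ℓ) U, by linarith⟩
    exact_mod_cast h6

end Pool.Agent.Results.MP_fa5bba_nt.OnePrimeCriterion
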