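import Pool.Agent.R629.SP.Irred

/-!
# If the Galois representation is reducible, its constituents are far from automorphic

`Π_j`, `j ∈ J`, are pairwise inequivalent unitary cuspidal automorphic representations of groups
`GL(m_j)` over `ℚ`, with the Satake classes `B_{j,p}`, for example all those on whose central character
the positive reals act trivially, a countable family, tempered at the places `p ∉ S`.  `π = Π_{j₀}` is one of
them, up to a twist `|det|^c`.  Suppose that a Galois representation `ρ` attached to `π` is reducible,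
`ρ = ρ₁ ⊕ ρ₂`.  Let `A_{1,p}` and `A_{2,p}` be the images in `GL(n_i, ℂ)` of Frobenius elements at `p`
under `ρ₁` and `ρ₂`, transported to `ℂ` and multiplied by the power of `p` belonging to the twist.  Then the
eigenvalues of `B_{j₀,p}` are those of `A_{1,p}` and `A_{2,p}` together.

The theorem says that then the boundary value of `L_S(s, ρ₁)` at `1 + iτ` is, for almost all `τ`,
transcendental over the field generated by any countable field, `τ`, the numbers `p^{-iτ}` and the values
`L_S(1 + iτ, Π_j)` of the L-functions of all members of the family, unless for some `j` one of the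
L-functions `L_S(s, ρ₁ × Π_j^∨)`, `L_S(s, ρ₂ × Π_j^∨)` vanishes at `s = 1` or has no meromorphic
continuation to a neighbourhood of `1`.  So `ρ` is irreducible if the constituents of the Galois
representations attached to cuspidal representations satisfy, in this very weak sense, the first
expectations about their L-functions and values.  About the family only the behaviour of the
Rankin–Selberg L-functions at `s = 1`, a theorem of Jacquet and Shalika, is used.
-/

set_option autoImplicit false

namespace Pool.Agent.Results.MP_fa5bba_nt.ReducibleTranscendence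

open MeasureTheory Filter Topology
open Pool.Agent.R629.SP

/-- The matrices `B_p`. -/
def matrices {n : ℕ} (B : Nat.Primes → GL (Fin n) ℂ) : Nat.Primes → Matrix (Fin n) (Fin n) ℂ :=
  fun p => (B p).val

/-- The Rankin–Selberg products of the families `B_j` behave at `s = 1` like those of pairwise
inequivalent unitary cuspidal representations: `∏_{p ∉ S} ∏_{a, b} (1 - a conj(b) p^{-s})⁻¹`, `a` and `b`
running over the eigenvalues of `B_{i,p}` and `B_{j,p}`, has a meromorphic continuation to a
neighbourhood of `1`, with a simple pole at `1` if `i = j` and of order `0` at `1` if `i ≠ j`. -/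
def RankinSelberg {J : Type} {m : J → ℕ} (S : Finset ℕ)
    (B : ∀ j, Nat.Primes → Matrix (Fin (m j)) (Fin (m j)) ℂ) : Prop :=
  (∀ j, HasOrder (RSL S (B j) (B j)) (-1)) ∧ ∀ i j, i ≠ j → HasOrder (RSL S (B i) (B j)) 0

/-- The Rankin–Selberg product of `A` and `B` has a meromorphic continuation to a neighbourhood of `1`
and does not vanish at `1`. -/
def NonVanishing {n m : ℕ} (S : Finset ℕ) (A : Nat.Primes → Matrix (Fin n) (Fin n) ℂ)
    (B : Nat.Primes → Matrix (Fin m) (Fin m) ℂ) : Prop :=
  ∃ k : ℤ, k ≤ 0 ∧ HasOrder (RSL S A B) k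

/-- **Reducibility forces transcendence or vanishing.**  Let `B_{j,p} ∈ GL(m_j, ℂ)`, `j ∈ J`, `J` countable,
for all primes `p`, with eigenvalues of absolute value at most `1` for `p` outside the finite set `S`, and
suppose that the Rankin–Selberg products have at `s = 1` the order `-1` for `i = j` and `0` for `i ≠ j`.
Let `j₀ ∈ J`, `n₁, n₂ > 0` and `A_{1,p} ∈ GL(n₁, ℂ)`, `A_{2,p} ∈ GL(n₂, ℂ)` be such that for `p ∉ S` the
multiset of the eigenvalues of `B_{j₀,p}` is the union of those of `A_{1,p}` and `A_{2,p}`.  The Euler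
products of `A₁` and `B_j` have boundary functions `l` and `l_j` on the line `Re s = 1`, and one of the
following holds.

* For every countable field `k` of complex numbers and almost all `τ` the number `l(τ)` is
  transcendental over the field `k(l_j(τ), τ, p^{-iτ} : j ∈ J, p prime)`.
* For some `j` the Rankin–Selberg product of `A₁` and `B_j` or that of `A₂` and `B_j` vanishes at `1` or has
  no meromorphic continuation to a neighbourhood of `1`. -/
theorem result {J : Type} [Countable J] {m : J → ℕ} (B : ∀ j, Nat.Primes → GL (Fin (m j)) ℂ)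
    (S : Finset ℕ) (_ : ∀ j, Bd S (matrices (B j)) 0)
    (_ : RankinSelberg S fun j => matrices (B j)) (j₀ : J) {n₁ n₂ : ℕ} (_ : 0 < n₁) (_ : 0 < n₂)
    (A₁ : Nat.Primes → GL (Fin n₁) ℂ) (A₂ : Nat.Primes → GL (Fin n₂) ℂ)
    (_ : ∀ p : Nat.Primes, (p : ℕ) ∉ S → (matrices (B j₀) p).charpoly.roots =
      (matrices A₁ p).charpoly.roots + (matrices A₂ p).charpoly.roots) :
    (∃ l : ℝ → ℂ, IsBoundary S (matrices A₁) 0 l) ∧
    (∀ j, ∃ l : ℝ → ℂ, IsBoundary S (matrices (B j)) 0 l) ∧
    ∀ (l : ℝ → ℂ) (lB : J → ℝ → ℂ), IsBoundary S (matrices A₁) 0 l →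
      (∀ j, IsBoundary S (matrices (B j)) 0 (lB j)) →
      (∀ k : Subfield ℂ, (k : Set ℂ).Countable → ∀ᵐ τ : ℝ,
        Transcendental (IntermediateField.adjoin k (valSet (fun j => lB j τ) τ)) (l τ)) ∨
      ∃ j, ¬ NonVanishing S (matrices A₁) (matrices (B j)) ∨
        ¬ NonVanishing S (matrices A₂) (matrices (B j)) := by
  classical
  rename_i hBd hRS hn₁ hn₂ hroots
  have hdet : ∀ {n : ℕ} (g : GL (Fin n) ℂ), g.val.det ≠ 0 := fun g =>
    ((Matrix.isUnit_iff_isUnit_det _).1 g.isUnit).ne_zero
  refine ⟨⟨_, isBoundary_bd (bd_left (hBd j₀) hroots)⟩, fun j => ⟨_, isBoundary_bd (hBd j)⟩,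
    fun l lB hl hlB => ?_⟩
  by_cases hall : ∃ j, ¬ NonVanishing S (matrices A₁) (matrices (B j)) ∨
        ¬ NonVanishing S (matrices A₂) (matrices (B j))
  · exact Or.inr hall
  push Not at hall
  refine Or.inl fun k hk => ?_
  refine decomposition hBd (fun j p _ => hdet _) (fun p _ => hdet _) (fun p _ => hdet _)
    (fun i j => ?_) hn₁ hn₂ hroots hl hlB (fun j => ?_) (fun j => ?_) k hk
  · by_cases h : i = j
    · subst h
      rw [if_pos rfl, ← hasOrder_iff]
      exact hRS.1 i
    · rw [if_neg h, ← hasOrder_iff]
      exact hRS.2 i j h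
  · obtain ⟨k, h3, h4⟩ := (hall j).1
    exact ⟨k, h3, (hasOrder_iff _ _).1 h4⟩
  · obtain ⟨k, h3, h4⟩ := (hall j).2
    exact ⟨k, h3, (hasOrder_iff _ _).1 h4⟩

end Pool.Agent.Results.MP_fa5bba_nt.ReducibleTranscendence
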