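import Mathlib
import Pool.Agent.R931.ZF.Coef
import Pool.Agent.R931.ZF.Examples

/-!
# A zero-one law for the irreducibility of compatible systems

Let `π` be an algebraic cuspidal automorphic representation of `GL_n` over a number field `K` (for example
`ℚ`) whose Hecke polynomials have coefficients in the number field `E`, with the attached representations
`V_λ` of the Galois group of `K` over the completions `E_λ`.  For a prime number `ℓ` let `V_ℓ` be the
sum of the `V_λ`, for all `λ` above `ℓ`: it is a representation over `ℚ_ℓ` of dimension `N = n [E : ℚ]` with an
action of `E` (by `ε ℓ`), and its Frobenius polynomials `P v` are the norms of the Hecke polynomials.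
For an embedding `φ` of `E` in the algebraic closure of `ℚ_ℓ`, corresponding to a place `λ`, the part
`partAt (ε ℓ) φ` of `V_ℓ` is the representation `V_λ` over the algebraic closure of `ℚ_ℓ`, of dimension `n`.
(More generally the theorem is about representations of a compact group `Γ` with a
homomorphism from the Galois group.)  We assume purity (the Ramanujan conjecture) and integrality: outside
of a finite set `S` of places `v` the Frobenius eigenvalues have absolute value `(q v) ^ (wt / 2)`, and
`(q v) ^ c` times an eigenvalue is an algebraic integer; these are known if `π` is regular and
essentially self-dual, and for all motives.  No self-duality, no regularity and nothing at the places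
above `ℓ` is used.  Let `r` be the maximal number of multiplicatively independent eigenvalues of a
Frobenius element on `V_ℓ` (the rank of the `ℓ`-adic monodromy groups).

The *relations* between numbers `z_1, ..., z_N` are the vectors `n` of integers such that the product of
the `z_i ^ {n_i}` is a root of unity.  Let `R` be a set of vectors of rank at most `N - r`, and let `A` be
the group of permutations of `{1, ..., N}` which preserve `R`.  An element `γ` of the image of the Galois group
at a prime `p` has the *type* `a` (with respect to `p` and to an automorphism `τ` of the algebraic
closure of `ℚ_p`) if the eigenvalues of `ρ_p(γ)` on `V_p` can be written as `z_1, ..., z_N` with relations `R`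
and `τ (z_i) = z_{a(i)}` (no quotient of two of them being a root of unity).  In the same way we define
the types of the elements of the Lie algebra of the image.

**Theorem.**  Let `T j` (for `j` in any index set) be sets of types which occur at primes `p j` for
automorphisms `τ j`, and suppose that `A`, the sets `T j` and the number `m = [E : ℚ]` satisfy the following
condition `OrbitBound` on finite permutation groups: if `M` is a normal subgroup of a subgroup `G` of `A` such
that the elements of `T j` are, for every `j`, conjugate in `A` to elements of a coset of `M` in `G`, and if `N`
is a subgroup of `A` with an element `y` of the normalizer of `N` in `A` such that all elements of some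
coset `M * g` (`g` in `G`) are conjugate in `A` to elements of `N * y`, then `N` has at most `m` orbits.
Then for all prime numbers `ℓ` outside of a set of natural density zero, and for all `λ` above `ℓ`, the
representation `V_λ` is absolutely irreducible, also for all subgroups of finite index.  Moreover the only
endomorphisms of `V_ℓ` which commute with a subgroup of finite index are the elements of `E ⊗ ℚ_ℓ` (so the
`V_λ` and their conjugates are not isomorphic to each other).

So the irreducibility at `100` percent of the primes, which is not known in general even for regular
self-dual `π` of large rank (for these, Patrikis and Taylor prove it for a positive proportion of the primes),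
follows from the types of finitely many elements at one prime `p` or at several primes; the types can be
computed from the Hecke polynomials at finitely many places.  If `E = ℚ`, the condition is satisfied if the
types at one prime `p` and one `τ` contain `1` and generate `A` invariably, for a transitive group `A`
(`orbitBound_of_invariable`), or if `A = W * Z` with a central subgroup `Z`, and they contain `1` and a
set which generates the transitive group `W` invariably (`orbitBound_of_central`); for example if
the identity component of the `p`-adic monodromy group is `GSp_N`, or `GL_1` times a spin or half-spin group,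
or `E_7` in the minuscule representation, or a tensor product of such groups.
Note that nothing is supposed about functoriality: it is not assumed that `π` is a functorial lift
(from `GSpin`, `E_7`, ...), so the monodromy groups at the other primes are not
contained in these groups a priori.  If `A` is doubly transitive and the rank is `N`, one has
irreducibility for all `ℓ` (`OnePrimeCriterion`); here `A` can be imprimitive (`GSp_N`, and all cases where
`E` is not `ℚ`), and there can be many relations (`r` is about the logarithm of `N` for the spin groups).

Idea of the proof.  Call a place good if no quotient of two Frobenius eigenvalues is a root of unity and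
if there are `r` multiplicatively independent ones.
(1) Given types at finitely many primes `p_j`, there is a good place `v` whose Frobenius eigenvalues have, for
suitable orderings, the same relations, and the same action of the Galois group of `ℚ_{p_j}`, for all `j`.
(2) Let `F` be the intersection of the splitting fields of the `P v` for all good `v`.  By (1) there is a
good place `v` with Galois groups `M ≤ G ≤ A` over `F` and over `ℚ` as in the condition.  By an argument with
extensions of `F` which are independent over `F`, for all `ℓ` outside of a set of density zero, all
elements of `M * g` occur at good places as the action of a fixed Frobenius element of the Galois group of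
`ℚ_ℓ` on the eigenvalues, where `g` depends on the Frobenius at `ℓ` in `F`.
(3) Let `U` be a subspace of `V_ℓ`, over the algebraic closure of `ℚ_ℓ`, which is stable under an open
subgroup.  At every good place, `U` determines a set of Frobenius eigenvalues.  For two good
places consider the pencil of tangent vectors which is spanned by the logarithms of the Frobenius
elements: its members have at most `r` independent eigenvalues, so there is a bijection between the two
sets of eigenvalues which preserves the relations and the sets determined by all `U` at the same
time.  The Frobenius element of `ℚ_ℓ` permutes the subspaces `U`; so we obtain a group `N` which preserves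
the sets of all `U`, and a coset `N * y` which contains conjugates of all elements of `M * g`.
(4) So `N` has at most `[E : ℚ]` orbits.  The parts of `V_ℓ` which belong to the `[E : ℚ]` embeddings of `E`
define different unions of orbits; so each of them is one orbit, and therefore irreducible.
-/

set_option autoImplicit false

namespace Pool.Agent.Results.MP_fa5bba_nt.ZeroOneIrreducibility

open NumberField IsDedekindDomain Polynomial Module Pool.Agent.Y114.TF Pool.Agent.Y114.GF
  Pool.Agent.Y114.MU Pool.Agent.Y114.RM Pool.Agent.R931.GD Pool.Agent.R931.ZL Pool.Agent.R931.ZM
  Pool.Agent.R931.ZF

theorem result (K : Type) [Field K] [NumberField K] (Γ : Type) [Group Γ] [TopologicalSpace Γ]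
    [IsTopologicalGroup Γ] [CompactSpace Γ] (s : Gal(AlgebraicClosure K/K) →* Γ)
    (hs : Continuous s)
    -- the `ℓ`-adic representations
    (N : ℕ) (hN : 0 < N)
    (ρ : ∀ (ℓ : ℕ) [Fact ℓ.Prime], Rep1 Γ N ℓ) (hρ : ∀ (ℓ : ℕ) [Fact ℓ.Prime], Conts (ρ ℓ))
    -- the coefficients
    (E : Type) [Field E] [NumberField E] (n : ℕ) (hn : 0 < n)
    (ε : ∀ (ℓ : ℕ) [Fact ℓ.Prime], E →+* End ℚ_[ℓ] (Fin N → ℚ_[ℓ]))
    (hε : ∀ (ℓ : ℕ) [Fact ℓ.Prime], ActsFreely n (ρ ℓ) (ε ℓ))
    -- the Frobenius polynomials outside of a finite set of places
    (wt : ℤ) (c : ℕ) (S : Set (HeightOneSpectrum (𝓞 K))) (hS : S.Finite)
    (P : HeightOneSpectrum (𝓞 K) → ℚ[X])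
    (hP : ∀ (ℓ : ℕ) [Fact ℓ.Prime], ∀ v ∉ S, ¬ Above v ℓ →
      GoodReduction (restrictTo (ρ ℓ) s) () wt v (P v))
    (hint : ∀ v ∉ S, IntegralAt c v (P v))
    -- at most `r` independent eigenvalues
    (r : ℕ) (hrank : ∀ v ∉ S, ¬ IndepRoots (r + 1) {P v})
    -- the relations, and their automorphism group
    (R : Set (Fin N → ℤ)) (hR : RankGE r R)
    -- the types at some prime numbers
    (J : Type) (T : J → Set (Equiv.Perm (Fin N))) (hne : ∃ j, (T j).Nonempty)
    (p : J → ℕ) [∀ j, Fact (p j).Prime] (τ : ∀ j, Gal(PadicAlgCl (p j)/ℚ_[p j]))
    (htypes : ∀ j, ∀ a ∈ T j, TypeOccurs s (ρ (p j)) R (τ j) a)
    (hm : OrbitBound (relAut R) T (finrank ℚ E)) :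
    HasDensityZero {ℓ | ∃ _ : Fact ℓ.Prime,
      ¬ ((∀ φ : E →+* PadicAlgCl ℓ, StronglyIrreducible (ρ ℓ) (partAt (ε ℓ) φ)) ∧
        ∀ Δ : Subgroup Γ, Δ.FiniteIndex →
          centralizerDim (ρ ℓ () '' (Δ : Set Γ)) ≤ finrank ℚ E)} :=
  main_coef (K := K) (Γ := Γ) (s := s) (N := N) (wt := wt) (c := c) (r := r) (S := S) (P := P)
    (ρ := ρ) (E := E) ⟨hN, hs, hρ, hS, hP, hint, fun v hv => hrank v hv.1⟩ R hR T hne p τ htypes n
    hn ε hε hm

end Pool.Agent.Results.MP_fa5bba_nt.ZeroOneIrreducibility
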